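import Pool.Agent.Helper17.OD.GoalsGE

/-!
# Packet GX2: the generic sets of ordinals are long
-/

namespace Pool.Agent.Helper17.OD.PkGX2

open Set

/-- The atomic formula `e ∈ X 0`. -/
def φ0 : SF := .mem (.nat 0) 0

/-- The forcing relation for `φ0` and the name `c`. -/
def Q (F : FD) (c p e : T) : Prop := Frc F φ0 p e (fun _ => c)

/-- The restricted relation. -/
def QS (F : FD) (c p e : T) : Prop := p ∈ F.P F.κ ∧ e ∈ D (Iio F.κ) ∧ Q F c p e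

/-- The order with tree arguments. -/
def LS (F : FD) (j : O) (q p : T) : Prop := q ∈ D (Iio F.κ) ∧ p ∈ D (Iio F.κ) ∧ F.Le j q p

/-- The amalgam as a relation. -/
def AS (F : FD) (j : O) (t q v : T) : Prop :=
  t ∈ F.P j ∧ q ∈ F.P F.κ ∧ F.Le j t q ∧ v = am t q j

/-- The condition `p` decides the value at `y`. -/
def ER (F : FD) (c : T) (b : O) (y p : T) : Prop :=
  (∃ z ∈ D (Iio F.γ), z.IsOrd ∧ z ∈ D (Iio b) ∧ QS F c p (.pr y z)) ∨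
  ∀ q ∈ D (Iio F.γ), q ∈ F.P F.κ → LS F F.κ q p →
    ∀ z ∈ D (Iio F.γ), z.IsOrd → z ∈ D (Iio b) → ¬ QS F c q (.pr y z)

/-- The condition `q` reduces the decision. -/
def RR (F : FD) (c : T) (b j ρ : O) (q : T) : Prop :=
  ∀ y ∈ D (Iio F.γ), y ∈ D (Iio ρ) → ∀ t ∈ D (Iio F.γ), t ∈ F.P j → LS F j t q →
    ∃ t' ∈ D (Iio F.γ), t' ∈ F.P j ∧ LS F j t' t ∧ ∃ v ∈ D (Iio F.γ), AS F j t' q v ∧
      v ∈ F.P F.κ ∧ ER F c b y v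

/-- The relation for the least value. -/
def VR (F : FD) (c : T) (b j : O) (q x z : T) : Prop :=
  z.IsOrd ∧ z ∈ D (Iio b) ∧ ((∃ v ∈ D (Iio F.γ), AS F j x.snd q v ∧ QS F c v (.pr x.fst z)) ∨
    ((¬ ∃ z' ∈ D (Iio F.γ), z'.IsOrd ∧ z' ∈ D (Iio b) ∧
      ∃ v ∈ D (Iio F.γ), AS F j x.snd q v ∧ QS F c v (.pr x.fst z')) ∧ z = .ord 0))

theorem ord_of {s : T} (h : s.IsOrd) : ∃ a : O, s = .ord a := by
  cases s with
  | nat n => exact h.elim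
  | ord a => exact ⟨a, rfl⟩
  | pr s t => exact h.elim

theorem sdER {F : FD} {c : T} {b : O} [SOM F.γ F.M F.M]
    (h1 : SD F.γ F.M F.M (fun e _ => QS F c e.fst e.snd))
    (h2 : SD F.γ F.M F.M (fun e _ => LS F F.κ e.fst e.snd))
    (h3 : F.P F.κ ∈ F.M) (h4 : D (Iio b) ∈ F.M) :
    SD F.γ F.M F.M (fun e _ => ER F c b e.fst e.snd) := by
  unfold ER
  apply_rules (maxDepth := 1000) [SD.app2 h1, SD.app2 h2, SD.exT, SD.allT, SD.isOrd, SD.mem,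
    SD.eq, SD.not, SD.and, SD.or, SD.imp, ST.id, ST.fst, ST.snd, ST.pr, ST.nat, SV.par]

theorem sdRR {F : FD} {c : T} {b j ρ : O} [SOM F.γ F.M F.M]
    (h1 : SD F.γ F.M F.M (fun e _ => ER F c b e.fst e.snd))
    (h2 : SD F.γ F.M F.M (fun e _ => LS F j e.fst e.snd))
    (h5 : SD F.γ F.M F.M (fun e _ => AS F j e.fst e.snd.fst e.snd.snd))
    (h3 : F.P F.κ ∈ F.M) (h4 : F.P j ∈ F.M) (h6 : D (Iio ρ) ∈ F.M) :
    SD F.γ F.M F.M (fun e _ => RR F c b j ρ e) := by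
  unfold RR
  apply_rules (maxDepth := 1000) [SD.app2 h1, SD.app2 h2, SD.app3 h5, SD.exT, SD.allT, SD.isOrd,
    SD.mem, SD.eq, SD.not, SD.and, SD.or, SD.imp, ST.id, ST.fst, ST.snd, ST.pr, ST.nat, SV.par]

theorem sdVR {F : FD} {c q : T} {b j : O} [SOM F.γ F.M F.M]
    (h1 : SD F.γ F.M F.M (fun e _ => QS F c e.fst e.snd))
    (h5 : SD F.γ F.M F.M (fun e _ => AS F j e.fst e.snd.fst e.snd.snd))
    (h3 : q ∈ D (Iio F.γ)) (h4 : D (Iio b) ∈ F.M) (h6 : (0 : O) < F.γ) :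
    SD F.γ F.M F.M (fun e _ => VR F c b j q e.fst e.snd) := by
  unfold VR
  apply_rules (maxDepth := 1000) [SD.app2 h1, SD.app3 h5, SD.exT, SD.allT, SD.isOrd,
    SD.mem, SD.eq, SD.not, SD.and, SD.or, SD.imp, ST.id, ST.fst, ST.snd, ST.pr, ST.nat, SV.par,
    ST.ordc h6, ST.const h3]

theorem sdE' {F : FD} {c q y : T} {b j : O} [SOM F.γ F.M F.M]
    (h1 : SD F.γ F.M F.M (fun e _ => ER F c b e.fst e.snd))
    (h2 : SD F.γ F.M F.M (fun e _ => LS F F.κ e.fst e.snd))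
    (h5 : SD F.γ F.M F.M (fun e _ => AS F j e.fst e.snd.fst e.snd.snd))
    (h3 : q ∈ D (Iio F.γ)) (h4 : F.P F.κ ∈ F.M) (h6 : y ∈ D (Iio F.γ)) :
    SD F.γ F.M F.M (fun e _ => ∃ t ∈ D (Iio F.γ), ∃ v ∈ D (Iio F.γ), AS F j t q v ∧
      v ∈ F.P F.κ ∧ ER F c b y v ∧ LS F F.κ e v) := by
  apply_rules (maxDepth := 1000) [SD.app2 h1, SD.app2 h2, SD.app3 h5, SD.exT, SD.allT,
    SD.mem, SD.eq, SD.not, SD.and, SD.or, SD.imp, ST.id, ST.fst, ST.snd, ST.pr, ST.nat, SV.par,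
    ST.const h3, ST.const h6]

theorem thm (hRED : G_RED) (hTRL : G_TRL) (hFSD : G_FSD) (hFMO : G_FMO) (hGNF : G_GNF)
    (hPBD : G_PBD) (hSOB : G_SOB) (hLST : G_LST) (hPIM : G_PIM) (hAMG : G_AMG) (hRES : G_RES)
    (hPRO : G_PRO) : G_GX2 := by
  intro F G hG j hj ρ hρ g hg hgb
  obtain ⟨c, hc, hgc⟩ := hg
  have hcκ : c ∈ D (Iio F.κ) := hc.1
  have hM : SOM F.γ F.M F.M := F.g.m1
  have hκγ : F.κ < F.γ := F.g.kg
  have hsj : Order.succ j < F.κ := F.g.klim.succ_lt hj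
  obtain ⟨j', hj'⟩ : ∃ j' : O, j' = Order.succ j := ⟨_, rfl⟩
  rw [← hj'] at hsj hgb ⊢
  obtain ⟨b', hb'⟩ : ∃ b' : O, b' = F.η j' := ⟨_, rfl⟩
  rw [← hb'] at hgb ⊢
  have hb'κ : b' < F.κ := by rw [hb']; exact F.e.lt _ hsj
  have hb'γ : b' < F.γ := hb'κ.trans hκγ
  have hρb : ρ < b' := by
    rw [hb']
    refine hρ.trans (F.e.inc j' hsj j ?_)
    rw [hj']
    exact Order.lt_succ j
  have hρκ : ρ < F.κ := hρb.trans hb'κ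
  have hργ : ρ < F.γ := hρκ.trans hκγ
  have hDκγ : D (Iio F.κ) ⊆ D (Iio F.γ) := D_mono (Iio_subset_Iio hκγ.le)
  have hDbκ : D (Iio b') ⊆ D (Iio F.κ) := D_mono (Iio_subset_Iio hb'κ.le)
  have hDρκ : D (Iio ρ) ⊆ D (Iio F.κ) := D_mono (Iio_subset_Iio hρκ.le)
  obtain ⟨p1, p2, p3, p4, p5, p6, p7, p8⟩ := hPBD F
  obtain ⟨i1, i2, i3⟩ := hPIM F
  obtain ⟨r1, r2, r3, r4, r5⟩ := hPRO F
  obtain ⟨s1, s2, s3, s4, s5, s6, s7, s8, s9⟩ := hSOB F.γ F.M F.M hM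
  obtain ⟨a1, a2⟩ := hAMG F
  obtain ⟨e1, e2, e3⟩ := hRES F
  obtain ⟨m1, m2, m3, m4⟩ := hGNF F G hG
  have hPκ : F.P F.κ ∈ F.M := i3 F.κ le_rfl
  have hPj : F.P j' ∈ F.M := i3 j' hsj.le
  have hDb : D (Iio b') ∈ F.M := s2 b' hb'γ
  have hDρ : D (Iio ρ) ∈ F.M := s2 ρ hργ
  have hPκD : F.P F.κ ⊆ D (Iio F.κ) := p2 _
  have hPjD : F.P j' ⊆ D (Iio F.κ) := p2 _
  -- definability
  have hLSc : ∀ i ≤ F.κ, SD F.γ F.M F.M (fun e _ => LS F i e.fst e.snd) := by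
    intro i hi
    have h1 := i2.sub (t := fun e => .pr (.ord i) (.pr e.fst e.snd))
      (ST.pr (ST.ordc (hi.trans_lt hκγ)) (ST.pr (ST.fst ST.id) (ST.snd ST.id)))
    refine h1.congr fun e _ _ _ => ?_
    constructor
    · rintro ⟨i', _, h2, h3, h4, h5⟩
      injection h2 with h2
      subst h2
      exact ⟨h3, h4, h5⟩
    · rintro ⟨h3, h4, h5⟩
      exact ⟨i, hi, rfl, h3, h4, h5⟩
  have hLκ := hLSc F.κ le_rfl
  have hLj := hLSc j' hsj.le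
  have hAS : SD F.γ F.M F.M (fun e _ => AS F j' e.fst e.snd.fst e.snd.snd) := by
    have h1 := a2.sub (t := fun e => .pr (.ord j') (.pr e.fst (.pr e.snd.fst e.snd.snd)))
      (ST.pr (ST.ordc (hsj.trans hκγ)) (ST.pr (ST.fst ST.id) (ST.pr (ST.fst (ST.snd ST.id))
        (ST.snd (ST.snd ST.id)))))
    refine h1.congr fun e _ _ _ => ?_
    constructor
    · rintro ⟨i', _, h2, h3, h4, h5, h6⟩
      injection h2 with h2
      subst h2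
      exact ⟨h3, h4, h5, h6⟩
    · rintro ⟨h3, h4, h5, h6⟩
      exact ⟨j', hsj, rfl, h3, h4, h5, h6⟩
  have hQS : SD F.γ F.M F.M (fun e _ => QS F c e.fst e.snd) := by
    have h1 := ((hFSD F).2 φ0).sub (t := fun e => .pr e.fst (.pr e.snd (.pr c (.nat 0))))
      (ST.pr (ST.fst ST.id) (ST.pr (ST.snd ST.id)
        (ST.pr (ST.const (hDκγ hcκ)) (ST.nat 0))))
    refine h1.congr fun e _ _ _ => ?_
    constructor
    · rintro ⟨h2, h3, _, h5⟩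
      exact ⟨h2, h3, h5⟩
    · rintro ⟨h2, h3, h5⟩
      exact ⟨h2, h3, pr_mem.2 ⟨hcκ, nat_mem _ _⟩, h5⟩
  have hER : SD F.γ F.M F.M (fun e _ => ER F c b' e.fst e.snd) := sdER hQS hLκ hPκ hDb
  have hRR : SD F.γ F.M F.M (fun e _ => RR F c b' j' ρ e) := sdRR hER hLj hAS hPκ hPj hDρ
  have h0γ : (0 : O) < F.γ := lt_of_le_of_lt zero_le hκγ
  -- monotonicity
  have hmono : ∀ p ∈ F.P F.κ, ∀ q ∈ F.P F.κ, F.Le F.κ q p → ∀ e, Q F c p e → Q F c q e :=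
    fun p hp q hq h e => (hFMO F φ0 e (fun _ => c)).1 p hp q hq h
  -- the dense open sets
  have hDO : ∀ y ∈ D (Iio ρ), F.DO {p | p ∈ F.P F.κ ∧ ER F c b' y p} := by
    intro y hy
    have hyγ : y ∈ D (Iio F.γ) := hDκγ (hDρκ hy)
    refine ⟨?_, fun p hp => hp.1, ?_, ?_⟩
    · exact s8 _ hPκ _ (SD.app2 hER (ST.const hyγ) ST.id)
    · intro p hp
      by_cases h : ∃ q ∈ F.P F.κ, F.Le F.κ q p ∧
          ∃ z ∈ D (Iio F.γ), z.IsOrd ∧ z ∈ D (Iio b') ∧ QS F c q (.pr y z)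
      · obtain ⟨q, hq, hqp, hz⟩ := h
        exact ⟨q, ⟨hq, Or.inl hz⟩, hqp⟩
      · refine ⟨p, ⟨hp, Or.inr ?_⟩, r1 _ _⟩
        intro q _ hq hqp z hz hzo hzb hQ
        exact h ⟨q, hq, hqp.2.2, z, hz, hzo, hzb, hQ⟩
    · rintro q ⟨hq, hE⟩ r hr hrq
      refine ⟨hr, ?_⟩
      rcases hE with ⟨z, hz, hzo, hzb, hQ⟩ | hE
      · exact Or.inl ⟨z, hz, hzo, hzb, hr, hQ.2.1, hmono q hq r hr hrq _ hQ.2.2⟩
      · refine Or.inr fun q' hq'γ hq' hq'r => ?_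
        exact hE q' hq'γ hq' ⟨hq'r.1, hPκD hq, r2 _ _ _ _ hq'r.2.2 hrq⟩
  have hfam : {z : T | ∃ y ∈ D (Iio ρ), ∃ p ∈ {p | p ∈ F.P F.κ ∧ ER F c b' y p},
      z = .pr y p} ∈ F.M := by
    have h1 := s8 _ (s6 _ hDρ _ hPκ) _ hER
    convert h1 using 1
    ext z
    constructor
    · rintro ⟨y, hy, p, ⟨hp, hE⟩, rfl⟩
      exact ⟨⟨y, hy, p, hp, rfl⟩, hE⟩
    · rintro ⟨⟨y, hy, p, hp, rfl⟩, hE⟩
      exact ⟨y, hy, p, ⟨hp, hE⟩, rfl⟩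
  have hRinM : {q | q ∈ F.P F.κ ∧ RR F c b' j' ρ q} ∈ F.M := s8 _ hPκ _ hRR
  have hRdense : ∀ p ∈ F.P F.κ, ∃ q ∈ F.P F.κ, F.Le F.κ q p ∧ RR F c b' j' ρ q := by
    intro p hp
    obtain ⟨q, hq, hqp, _, hq2⟩ := hRED F j ρ hj hρ (fun y => {p | p ∈ F.P F.κ ∧ ER F c b' y p})
      hDO hfam p hp
    refine ⟨q, hq, hqp, ?_⟩
    intro y _ hy t _ ht htq
    rw [← hj'] at hq2
    obtain ⟨t', ht', ht't, hE⟩ := hq2 y hy t ht htq.2.2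
    exact ⟨t', hDκγ (hPjD ht'), ht', ⟨hPjD ht', hPjD ht, ht't⟩, _, hDκγ (hPκD hE.1),
      ⟨ht', hq, r2 _ _ _ _ ht't htq.2.2, rfl⟩, hE.1, hE.2⟩
  obtain ⟨pG, hpG⟩ := hG.ne
  obtain ⟨q, ⟨hq, hqR⟩, hqG⟩ := m3 pG hpG _ hRinM (fun p hp _ => by
    obtain ⟨q, hq, hqp, hqR⟩ := hRdense p hp
    exact ⟨q, ⟨hq, hqR⟩, hq, hqp⟩)
  have hqγ : q ∈ D (Iio F.γ) := hDκγ (hPκD hq)
  -- the function of the least values
  obtain ⟨f, f1, _, f3⟩ := hLST F.γ F.M F.M hM (VR F c b' j' q) (sdVR hQS hAS hqγ hDb h0γ)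
  have h0b : (0 : O) < b' := lt_of_le_of_lt zero_le hρb
  have hVex : ∀ x ∈ D (Iio F.γ), ∃ y ∈ D (Iio F.γ), VR F c b' j' q x y := by
    intro x _
    by_cases h : ∃ z' ∈ D (Iio F.γ), z'.IsOrd ∧ z' ∈ D (Iio b') ∧
        ∃ v ∈ D (Iio F.γ), AS F j' x.snd q v ∧ QS F c v (.pr x.fst z')
    · obtain ⟨z, hz, hzo, hzb, hv⟩ := h
      exact ⟨z, hz, hzo, hzb, Or.inl hv⟩
    · exact ⟨.ord 0, ord_mem.2 h0γ, trivial, ord_mem.2 h0b, Or.inr ⟨h, rfl⟩⟩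
  have hfV : ∀ x ∈ D (Iio F.γ), VR F c b' j' q x (f x) := fun x hx => (f1 x hx (hVex x hx)).2.1
  obtain ⟨r, hr, hPr⟩ := p1 j' hsj
  rw [← hb'] at hr
  obtain ⟨d, hd⟩ : ∃ d : O, d = max ρ r := ⟨_, rfl⟩
  have hdb : d < b' := by rw [hd]; exact max_lt hρb hr
  have hDdb : D (Iio d) ⊆ D (Iio b') := D_mono (Iio_subset_Iio hdb.le)
  have hDbγ : D (Iio b') ⊆ D (Iio F.γ) := D_mono (Iio_subset_Iio hb'γ.le)
  have hgr : gr (D (Iio d)) f ∈ F.M := by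
    have hDd : D (Iio d) ∈ F.M := s2 d (hdb.trans hb'γ)
    refine SOM.of_SD (S := F.M) hb'γ ?_ ?_
    · rintro p ⟨x, hx, rfl⟩
      exact pr_mem.2 ⟨hDdb hx, (hfV x (hDbγ (hDdb hx))).2.1⟩
    · have h1 : SD F.γ F.M F.M (fun e _ => e = .pr e.fst e.snd ∧ e.fst ∈ D (Iio d) ∧
          f e.fst = e.snd) :=
        (SD.eq ST.id (ST.pr (ST.fst ST.id) (ST.snd ST.id))).and
          ((SD.mem (ST.fst ST.id) (SV.par hDd)).and f3)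
      refine h1.congr fun e _ _ _ => ?_
      constructor
      · rintro ⟨h2, h3, h4⟩
        exact ⟨e.fst, h3, by rw [h4]; exact h2⟩
      · rintro ⟨x, hx, rfl⟩
        exact ⟨rfl, hx, rfl⟩
  obtain ⟨b, hb, hfb⟩ := (F.e.reg j' hsj) d (by rw [← hb']; exact hdb) f (fun x hx => by
    have := hfV x (hDbγ (hDdb hx))
    exact ⟨this.1, by rw [← hb']; exact this.2.1⟩) hgr
  rw [← hb'] at hb
  refine ⟨b, hb, fun x hx => ?_⟩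
  -- the value at `x`
  obtain ⟨y, hy⟩ : ∃ y : T, y = .ord x := ⟨_, rfl⟩
  have hyρ : y ∈ D (Iio ρ) := by rw [hy]; exact ord_mem.2 hx
  have hyγ : y ∈ D (Iio F.γ) := hDκγ (hDρκ hyρ)
  have hE'M := s8 _ hPκ _ (sdE' (b := b') (y := y) hER hLκ hAS hqγ hPκ hyγ)
  obtain ⟨p, ⟨hp, t, htγ, v, hvγ, hAv, hv, hEv, hpv⟩, hpG'⟩ := m3 q hqG _ hE'M (by
    intro p hp hpq
    obtain ⟨h1, _, _, _, _, h2, h3, h4⟩ := e1 p hp j' hsj.le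
    obtain ⟨t', ht'γ, ht', ht't, v, hvγ, hAv, hv, hEv⟩ := hqR y hyγ hyρ (res p j')
      (hDκγ (hPjD h1)) h1 ⟨hPjD h1, hPκD hq, r2 _ _ _ _ h2 (r3 _ _ _ _ hsj.le hpq)⟩
    have ht'p : F.Le j' t' p := r2 _ _ _ _ ht't.2.2 h2
    obtain ⟨g1, _, _, g4, _⟩ := a1 j' hsj t' ht' p hp ht'p
    obtain ⟨_, _, _, _, _, _, _, g8⟩ := a1 j' hsj t' ht' q hq hAv.2.2.1
    have h5 := g8 p hp hpq ht'p
    rw [← hAv.2.2.2] at h5
    exact ⟨am t' p j', ⟨g1, t', ht'γ, v, hvγ, hAv, hv, hEv, hPκD g1, hPκD hv, h5⟩, g1, g4⟩)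
  have hvG : v ∈ G := hG.up p hpG' v hv hpv.2.2
  have htruth : ∀ e ∈ D (Iio F.κ), (e ∈ gro ρ g ↔ ∃ p ∈ G, Q F c p e) := by
    intro e he
    have := hTRL F G hG φ0 e he (fun _ => c) (fun _ => hc)
    rw [hgc]
    exact this
  rcases hEv with ⟨z, hz, hzo, hzb, hQ⟩ | hno
  · -- the value is decided
    have hwd : Tr.pr y t ∈ D (Iio d) := by
      rw [hd]
      exact pr_mem.2 ⟨D_mono (Iio_subset_Iio (le_max_left _ _)) hyρ,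
        D_mono (Iio_subset_Iio (le_max_right _ _)) (hPr hAv.1)⟩
    have hwγ := hDbγ (hDdb hwd)
    have h1 := hfb _ hwd
    obtain ⟨h2, h3, h4⟩ := hfV _ hwγ
    rcases h4 with ⟨v', _, hAv', hQ'⟩ | ⟨hno, _⟩
    · have hvv : v' = v := hAv'.2.2.2.trans hAv.2.2.2.symm
      rw [hvv] at hQ'
      obtain ⟨z', hz'⟩ := ord_of h2
      rw [hz'] at h1 hQ' h3
      have h5 : (Tr.pr y (.ord z') : T) ∈ gro ρ g :=
        (htruth _ hQ'.2.1).2 ⟨v, hvG, hQ'.2.2⟩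
      obtain ⟨x', _, h6⟩ := h5
      rw [hy] at h6
      injection h6 with h7 h8
      injection h7 with h7
      injection h8 with h8
      rw [h7, ← h8]
      exact ord_mem.1 h1
    · exact absurd ⟨z, hz, hzo, hzb, v, hvγ, hAv, hQ⟩ hno
  · -- no value
    exfalso
    have hgx : g x < b' := hgb x hx
    have hgxb : (Tr.ord (g x) : T) ∈ D (Iio b') := ord_mem.2 hgx
    have h1 : (Tr.pr y (.ord (g x)) : T) ∈ gro ρ g := ⟨x, hx, by rw [hy]⟩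
    obtain ⟨p', hp', hQ'⟩ := (htruth _ (pr_mem.2 ⟨hDρκ hyρ, hDbκ hgxb⟩)).1 h1
    obtain ⟨r', hr'G, hr'p, hr'v⟩ := hG.dir p' hp' v hvG
    have hr' := hG.sub hr'G
    refine hno r' (hDκγ (hPκD hr')) hr' ⟨hPκD hr', hPκD hv, hr'v⟩ (.ord (g x)) (hDbγ hgxb)
      trivial hgxb ⟨hr', pr_mem.2 ⟨hDρκ hyρ, hDbκ hgxb⟩, ?_⟩
    exact hmono p' (hG.sub hp') r' hr' hr'p _ hQ'

end Pool.Agent.Helper17.OD.PkGX2
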