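import Pool.Agent.Helper17.OD.GoalsSO

/-!
# Packet TRD: truth is definable over second order structures
-/

namespace Pool.Agent.Helper17.OD.PkTRD

open Set

/-- Evaluation with tree arguments. -/
def TV (u e v : T) : Prop := ∃ c : Code, u = Tr.ofCode c ∧ tval c e = v

/-- Being a code. -/
def Cd (u : T) : Prop := ∃ c : Code, u = Tr.ofCode c

theorem oc_nat' (n : ℕ) : (Tr.ofCode (.nat n) : T) = .nat n := rfl

theorem oc_pr' (c d : Code) : (Tr.ofCode (.pr c d) : T) = .pr (Tr.ofCode c) (Tr.ofCode d) := rfl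

theorem oc_leaves (c : Code) : (Tr.ofCode c : T).leaves = ∅ := by
  induction c with
  | nat n => rfl
  | ord a => exact a.elim
  | pr s t hs ht => rw [oc_pr']; simp only [Tr.leaves, hs, ht, union_empty]

theorem oc_nat {c : Code} {n : ℕ} (h : (Tr.ofCode c : T) = .nat n) : c = .nat n := by
  cases c with
  | nat m => simp only [oc_nat', Tr.nat.injEq] at h; rw [h]
  | ord a => exact a.elim
  | pr s t => rw [oc_pr'] at h; cases h

theorem oc_pr {c : Code} {u v : T} (h : (Tr.ofCode c : T) = .pr u v) :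
    ∃ c1 c2, c = .pr c1 c2 ∧ u = Tr.ofCode c1 ∧ v = Tr.ofCode c2 := by
  cases c with
  | nat m => rw [oc_nat'] at h; cases h
  | ord a => exact a.elim
  | pr s t =>
    rw [oc_pr'] at h
    injection h with h1 h2
    exact ⟨s, t, rfl, h1.symm, h2.symm⟩

theorem oc_inj {c d : Code} (h : (Tr.ofCode c : T) = Tr.ofCode d) : c = d := by
  induction c generalizing d with
  | nat n => exact (oc_nat h.symm).symm
  | ord a => exact a.elim
  | pr s t hs ht =>
    obtain ⟨c1, c2, h1, h2, h3⟩ := oc_pr h.symm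
    rw [h1, hs h2, ht h3]

theorem oc_mem (c : Code) (A : Set O) : (Tr.ofCode c : T) ∈ D A := by
  unfold D
  rw [mem_ofPred_eq, oc_leaves]
  exact empty_subset _

theorem tv_oc {c : Code} {e v : T} : TV (Tr.ofCode c) e v ↔ tval c e = v := by
  constructor
  · rintro ⟨d, hd, h⟩
    rw [oc_inj hd]
    exact h
  · intro h
    exact ⟨c, rfl, h⟩

/-- The predecessors. -/
def prd (x : T) : Set T := {x' | x'.fst.IsOrd ∧ x' = .pr x'.fst x'.snd ∧ Cd x'.snd ∧
  x.fst.IsOrd ∧ (x'.fst.llt x.fst ∨ (x'.fst = x.fst ∧ x.snd = .pr x.snd.fst x.snd.snd ∧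
    (x'.snd = x.snd.snd ∨ x'.snd = x.snd.snd.fst ∨ x'.snd = x.snd.snd.snd)))}

/-- The truth sets. -/
def F (x : T) : Set T := {y | ∃ (b : O) (c : Code), x = .pr (.ord b) (Tr.ofCode c) ∧
  y ∈ D (Iio b) ∧ Tru b c y}

/-- The recursion, by cases on the code. -/
def Psi (k : O) (a u y : T) (G : Set T) : Prop :=
  (u = .pr (.nat 0) (.pr u.snd.fst u.snd.snd) ∧
    ∃ v ∈ D (Iio k), TV u.snd.fst y v ∧ TV u.snd.snd y v) ∨
  (u = .pr (.nat 1) (.pr u.snd.fst u.snd.snd) ∧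
    ∃ v ∈ D (Iio k), ∃ w ∈ D (Iio k), TV u.snd.fst y v ∧ TV u.snd.snd y w ∧ v.lt w) ∨
  (u = .pr (.nat 2) u.snd ∧ ∃ v ∈ D (Iio k), TV u.snd y v ∧ v.IsOrd) ∨
  (u = .pr (.nat 3) (.pr u.snd.fst u.snd.snd) ∧
    ∃ v ∈ D (Iio k), ∃ w ∈ D (Iio k), TV u.snd.fst y v ∧ TV u.snd.snd y w ∧ v.lmem w) ∨
  (u = .pr (.nat 4) (.pr u.snd.fst (.pr u.snd.snd.fst u.snd.snd.snd)) ∧
    ∃ v ∈ D (Iio k), ∃ w ∈ D (Iio k), ∃ z ∈ D (Iio k), TV u.snd.fst y v ∧
      TV u.snd.snd.fst y w ∧ TV u.snd.snd.snd y z ∧ v.llt a ∧ Tr.pr (.pr v w) z ∈ G) ∨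
  (u = .pr (.nat 5) (.pr u.snd.fst u.snd.snd) ∧
    ¬ (Tr.pr (.pr a u.snd.fst) y ∈ G ∧ Tr.pr (.pr a u.snd.snd) y ∈ G)) ∨
  (u = .pr (.nat 6) u.snd ∧ ∃ z ∈ D (Iio k), InD a z ∧ Tr.pr (.pr a u.snd) (.pr z y) ∈ G)

/-- The recursion. -/
def Phi (k : O) (x y : T) (G : Set T) : Prop :=
  x = .pr x.fst x.snd ∧ Cd x.snd ∧ InD x.fst y ∧ Psi k x.fst x.snd y G

theorem ord_of {s : T} (h : s.IsOrd) : ∃ a : O, s = .ord a := by
  cases s with
  | nat n => exact h.elim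
  | ord a => exact ⟨a, rfl⟩
  | pr s t => exact h.elim

theorem height_fst {L : Type*} (t : Tr L) : t.fst.height ≤ t.height := by
  cases t with
  | nat n => exact Nat.zero_le _
  | ord a => exact Nat.zero_le _
  | pr s t => simp only [Tr.fst, Tr.height]; omega

theorem height_snd {L : Type*} (t : Tr L) : t.snd.height ≤ t.height := by
  cases t with
  | nat n => exact Nat.zero_le _
  | ord a => exact Nat.zero_le _
  | pr s t => simp only [Tr.snd, Tr.height]; omega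

theorem prd_wf : WellFounded fun y x : T => y ∈ prd x := by
  have h : WellFounded (Prod.Lex (· < · : O → O → Prop) (· < · : ℕ → ℕ → Prop)) :=
    WellFounded.prod_lex wellFounded_lt wellFounded_lt
  refine Subrelation.wf ?_ (InvImage.wf (fun x : T => (lev x.fst, x.snd.height)) h)
  rintro y x ⟨hy, _, _, hx, hlt⟩
  obtain ⟨a, ha⟩ := ord_of hy
  obtain ⟨b, hb⟩ := ord_of hx
  show Prod.Lex _ _ (lev y.fst, y.snd.height) (lev x.fst, x.snd.height)
  rw [ha, hb]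
  rcases hlt with hlt | ⟨h1, h2, h3⟩
  · rw [ha, hb] at hlt
    exact Prod.Lex.left _ _ hlt
  · rw [ha, hb] at h1
    injection h1 with h1
    subst h1
    refine Prod.Lex.right _ ?_
    have h4 : x.snd.snd.height < x.snd.height := by
      rw [h2]
      simp only [Tr.snd, Tr.height]
      omega
    rcases h3 with h3 | h3 | h3
    · rw [h3]; exact h4
    · rw [h3]; exact (height_fst _).trans_lt h4
    · rw [h3]; exact (height_snd _).trans_lt h4

theorem prd_D {d : O} {x : T} (hx : x ∈ D (Iio d)) : prd x ⊆ D (Iio d) := by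
  rintro y ⟨hy, h1, ⟨c, hc⟩, h2, h3⟩
  rw [h1]
  refine pr_mem.2 ⟨?_, by rw [hc]; exact oc_mem _ _⟩
  obtain ⟨a, ha⟩ := ord_of hy
  obtain ⟨b, hb⟩ := ord_of h2
  have hbd : b ∈ Iio d := by
    have := fst_mem hx
    rw [hb] at this
    exact ord_mem.1 this
  rw [ha, ord_mem]
  rcases h3 with h3 | ⟨h3, _⟩
  · rw [ha, hb] at h3
    exact lt_trans h3 hbd
  · rw [ha, hb] at h3
    injection h3 with h3
    rw [h3]
    exact hbd

theorem fst_pr {L : Type*} (s t : Tr L) : (Tr.pr s t).fst = s := rfl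

theorem snd_pr {L : Type*} (s t : Tr L) : (Tr.pr s t).snd = t := rfl

/-- The key lemma. -/
theorem key {k b : O} (hb : b < k) (c : Code) {y : T} (hy : y ∈ D (Iio b)) (G : Set T)
    (hG : ∀ v w z : T, Tr.pr (.pr v w) z ∈ G ↔
      (Tr.pr v w ∈ prd (.pr (.ord b) (Tr.ofCode c)) ∧ z ∈ F (.pr v w))) :
    Tru b c y ↔ Psi k (.ord b) (Tr.ofCode c) y G := by
  have hyk : y ∈ D (Iio k) := D_mono (Iio_subset_Iio hb.le) hy
  have htk : ∀ c : Code, tval c y ∈ D (Iio k) := fun c => tval_mem hyk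
  have hF : ∀ (b' : O) (c' : Code) (z : T), z ∈ F (.pr (.ord b') (Tr.ofCode c')) ↔
      z ∈ D (Iio b') ∧ Tru b' c' z := by
    intro b' c' z
    constructor
    · rintro ⟨b1, c1, h1, h2, h3⟩
      injection h1 with h4 h5
      injection h4 with h4
      rw [h4, oc_inj h5]
      exact ⟨h2, h3⟩
    · rintro ⟨h1, h2⟩
      exact ⟨b', c', rfl, h1, h2⟩
  rw [tru_eq]
  unfold stp
  split
  · -- equality
    rename_i s t
    simp (decide := true) only [Psi, oc_pr', oc_nat', fst_pr, snd_pr, Tr.pr.injEq, Tr.nat.injEq,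
      tv_oc, true_and, and_true, false_and, or_false, false_or]
    constructor
    · intro h
      exact ⟨_, htk s, rfl, h.symm⟩
    · rintro ⟨v, _, h1, h2⟩
      rw [h1, h2]
  · rename_i s t
    simp (decide := true) only [Psi, oc_pr', oc_nat', fst_pr, snd_pr, Tr.pr.injEq, Tr.nat.injEq,
      tv_oc, true_and, and_true, false_and, or_false, false_or]
    constructor
    · intro h
      exact ⟨_, htk s, _, htk t, rfl, rfl, h⟩
    · rintro ⟨v, _, w, _, h1, h2, h3⟩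
      rw [h1, h2]
      exact h3
  · rename_i s
    simp (decide := true) only [Psi, oc_pr', oc_nat', fst_pr, snd_pr, Tr.pr.injEq, Tr.nat.injEq,
      tv_oc, true_and, and_true, false_and, or_false, false_or]
    constructor
    · intro h
      exact ⟨_, htk s, rfl, h⟩
    · rintro ⟨v, _, h1, h2⟩
      rw [h1]
      exact h2
  · rename_i s t
    simp (decide := true) only [Psi, oc_pr', oc_nat', fst_pr, snd_pr, Tr.pr.injEq, Tr.nat.injEq,
      tv_oc, true_and, and_true, false_and, or_false, false_or]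
    constructor
    · intro h
      exact ⟨_, htk s, _, htk t, rfl, rfl, h⟩
    · rintro ⟨v, _, w, _, h1, h2, h3⟩
      rw [h1, h2]
      exact h3
  · -- truth at a lower level
    rename_i s u v
    simp (decide := true) only [Psi, oc_pr', oc_nat', fst_pr, snd_pr, Tr.pr.injEq, Tr.nat.injEq,
      tv_oc, true_and, and_true, false_and, or_false, false_or]
    constructor
    · rintro ⟨b', c', h1, h2, h3, h4, _, h5⟩
      refine ⟨_, htk s, _, htk u, _, htk v, rfl, rfl, rfl, ?_, ?_⟩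
      · rw [h1]; exact h2
      · rw [hG, h1, h3, hF]
        exact ⟨⟨trivial, rfl, ⟨c', rfl⟩, trivial, Or.inl h2⟩, h4, h5⟩
    · rintro ⟨x, _, w, _, z, _, h1, h2, h3, h4, h5⟩
      rw [hG] at h5
      obtain ⟨⟨h6, _, ⟨c', hc'⟩, _⟩, h7⟩ := h5
      obtain ⟨b', hb'⟩ := ord_of h6
      rw [fst_pr] at hb'
      rw [snd_pr] at hc'
      rw [hb', hc', hF] at h7
      rw [hb'] at h4
      exact ⟨b', c', h1.trans hb', h4, h2.trans hc', by rw [h3]; exact h7.1, h4,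
        by rw [h3]; exact h7.2⟩
  · -- nand
    rename_i φ ψ
    simp (decide := true) only [Psi, oc_pr', oc_nat', fst_pr, snd_pr, Tr.pr.injEq, Tr.nat.injEq,
      tv_oc, true_and, and_true, false_and, or_false, false_or]
    have e1 : Tr.pr (.pr (.ord b) (Tr.ofCode φ)) y ∈ G ↔
        stp b (fun b' c e => b' < b ∧ Tru b' c e) φ y := by
      rw [hG, hF, ← tru_eq]
      constructor
      · exact fun h => h.2.2
      · exact fun h => ⟨⟨trivial, rfl, ⟨φ, rfl⟩, trivial, Or.inr ⟨rfl, rfl, Or.inr (Or.inl rfl)⟩⟩,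
          hy, h⟩
    have e2 : Tr.pr (.pr (.ord b) (Tr.ofCode ψ)) y ∈ G ↔
        stp b (fun b' c e => b' < b ∧ Tru b' c e) ψ y := by
      rw [hG, hF, ← tru_eq]
      constructor
      · exact fun h => h.2.2
      · exact fun h => ⟨⟨trivial, rfl, ⟨ψ, rfl⟩, trivial, Or.inr ⟨rfl, rfl, Or.inr (Or.inr rfl)⟩⟩,
          hy, h⟩
    rw [e1, e2]
  · -- the quantifier
    rename_i φ
    simp (decide := true) only [Psi, oc_pr', oc_nat', fst_pr, snd_pr, Tr.pr.injEq, Tr.nat.injEq,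
      tv_oc, true_and, and_true, false_and, or_false, false_or]
    have e1 : ∀ z, z ∈ D (Iio b) → (Tr.pr (.pr (.ord b) (Tr.ofCode φ)) (.pr z y) ∈ G ↔
        stp b (fun b' c e => b' < b ∧ Tru b' c e) φ (.pr z y)) := by
      intro z hz
      rw [hG, hF, ← tru_eq]
      constructor
      · exact fun h => h.2.2
      · exact fun h => ⟨⟨trivial, rfl, ⟨φ, rfl⟩, trivial, Or.inr ⟨rfl, rfl, Or.inl rfl⟩⟩,
          pr_mem.2 ⟨hz, hy⟩, h⟩
    constructor
    · rintro ⟨x, hx, h⟩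
      exact ⟨x, D_mono (Iio_subset_Iio hb.le) hx, ⟨b, rfl, hx⟩, (e1 x hx).2 h⟩
    · rintro ⟨x, _, ⟨b', hb', hx⟩, h⟩
      injection hb' with hb'
      subst hb'
      exact ⟨x, hx, (e1 x hx).1 h⟩
  · -- all other codes
    rename_i h0 h1 h2 h3 h4 h5 h6
    refine iff_of_false not_false ?_
    rintro (⟨h, _⟩ | ⟨h, _⟩ | ⟨h, _⟩ | ⟨h, _⟩ | ⟨h, _⟩ | ⟨h, _⟩ | ⟨h, _⟩)
    all_goals
      obtain ⟨c1, c2, hc, hc1, hc2⟩ := oc_pr h
      have hc1' := oc_nat hc1.symm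
      subst hc1'
    · obtain ⟨d1, d2, hd, _⟩ := oc_pr hc2.symm
      subst hd
      exact h0 _ _ hc
    · obtain ⟨d1, d2, hd, _⟩ := oc_pr hc2.symm
      subst hd
      exact h1 _ _ hc
    · exact h2 _ hc
    · obtain ⟨d1, d2, hd, _⟩ := oc_pr hc2.symm
      subst hd
      exact h3 _ _ hc
    · obtain ⟨d1, d2, hd, _, hd2⟩ := oc_pr hc2.symm
      obtain ⟨g1, g2, hg, _⟩ := oc_pr hd2.symm
      subst hg
      subst hd
      exact h4 _ _ _ hc
    · obtain ⟨d1, d2, hd, _⟩ := oc_pr hc2.symm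
      subst hd
      exact h5 _ _ hc
    · exact h6 _ hc

/-- A tree below a limit. -/
theorem ex_bd {k : O} (hk : Order.IsSuccLimit k) {t : T} (ht : t ∈ D (Iio k)) :
    ∃ a < k, t ∈ D (Iio a) := by
  induction t with
  | nat n =>
    have h0 : ∃ a, a < k := by
      by_contra hc
      exact hk.1 (fun a _ => le_of_not_gt (fun h => hc ⟨a, h⟩))
    obtain ⟨a, ha⟩ := h0
    exact ⟨a, ha, nat_mem _ _⟩
  | ord a =>
    have ha : a < k := ord_mem.1 ht
    exact ⟨Order.succ a, hk.succ_lt ha, ord_mem.2 (Order.lt_succ a)⟩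
  | pr s t hs ht' =>
    obtain ⟨h1, h2⟩ := pr_mem.1 ht
    obtain ⟨a, ha, ha'⟩ := hs h1
    obtain ⟨b, hb, hb'⟩ := ht' h2
    exact ⟨max a b, max_lt ha hb, pr_mem.2
      ⟨D_mono (Iio_subset_Iio (le_max_left a b)) ha', D_mono (Iio_subset_Iio (le_max_right a b)) hb'⟩⟩

theorem thm (hREC : G_REC) (hTRE : G_TRE) : G_TRD := by
  intro k S S' h
  have := h
  obtain ⟨t1, t2, t3, t4, t5, t6, t7, t8, t9, t10⟩ := hTRE k S S' h
  have hlt : SD k S S' (fun e _ => e.fst.lt e.snd) := t2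
  have hlm : SD k S S' (fun e _ => e.fst.lmem e.snd) := t3
  have hin : SD k S S' (fun e _ => InD e.fst e.snd) := t6
  have hcd : SD k S S' (fun e _ => Cd e) := t7
  have htv : SD k S S' (fun e _ => TV e.fst e.snd.fst e.snd.snd) := t10
  have hprd : SD k S S' (fun e _ => e.fst ∈ prd e.snd) := by
    show SD k S S' (fun e _ => e.fst.fst.IsOrd ∧ e.fst = .pr e.fst.fst e.fst.snd ∧ Cd e.fst.snd ∧
      e.snd.fst.IsOrd ∧ (e.fst.fst.llt e.snd.fst ∨ (e.fst.fst = e.snd.fst ∧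
      e.snd.snd = .pr e.snd.snd.fst e.snd.snd.snd ∧
      (e.fst.snd = e.snd.snd.snd ∨ e.fst.snd = e.snd.snd.snd.fst ∨
        e.fst.snd = e.snd.snd.snd.snd))))
    apply_rules (maxDepth := 1000) [SD.exT, SD.allT, SD.isOrd, SD.llt, SD.eq, SD.not, SD.and,
      SD.or, ST.id, ST.fst, ST.snd, ST.pr, ST.nat, SD.app1 hcd]
  have hphi : SD k S S' (fun e σ => Phi k e.fst e.snd (σ 0)) := by
    unfold Phi Psi
    apply_rules (maxDepth := 1000) [SD.exT, SD.allT, SD.isOrd, SD.llt, SD.mem, SD.eq, SD.not, SD.and,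
      SD.or, ST.id, ST.fst, ST.snd, ST.pr, ST.nat, SV.var, SD.app1 hcd, SD.app2 hlt,
      SD.app2 hlm, SD.app2 hin, SD.app3 htv]
  have h0 : ∃ d₀ : O, d₀ < k ∧ ∀ d < k, d₀ ≤ d → ∀ x ∈ D (Iio d), prd x ⊆ D (Iio d) := by
    obtain ⟨a, ha, _⟩ := ex_bd h.lim (nat_mem 0 (Iio k))
    exact ⟨a, ha, fun d _ _ x hx => prd_D hx⟩
  have hbd : ∀ x : T, ∀ d : O, x ∈ D (Iio d) → F x ⊆ D (Iio d) := by
    rintro x d hx y ⟨b, c, hx', hy, _⟩
    rw [hx'] at hx
    have hb : b < d := ord_mem.1 (pr_mem.1 hx).1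
    exact D_mono (Iio_subset_Iio hb.le) hy
  have hrec : ∀ x ∈ D (Iio k), ∀ y, y ∈ F x ↔ y ∈ D (Iio k) ∧
      Phi k x y {p | ∃ x' y' : T, p = .pr x' y' ∧ x' ∈ prd x ∧ y' ∈ F x'} := by
    intro x hx y
    obtain ⟨G, hG⟩ : ∃ G : Set T, G = {p | ∃ x' y' : T, p = .pr x' y' ∧ x' ∈ prd x ∧ y' ∈ F x'} :=
      ⟨_, rfl⟩
    rw [← hG]
    have hG' : ∀ v w z : T, Tr.pr (.pr v w) z ∈ G ↔ (Tr.pr v w ∈ prd x ∧ z ∈ F (.pr v w)) := by
      intro v w z
      rw [hG]
      constructor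
      · rintro ⟨x', y', h1, h2, h3⟩
        injection h1 with h4 h5
        rw [h4, h5]
        exact ⟨h2, h3⟩
      · rintro ⟨h1, h2⟩
        exact ⟨_, _, rfl, h1, h2⟩
    constructor
    · rintro ⟨b, c, hx', hy, hT⟩
      subst hx'
      have hb : b < k := ord_mem.1 (pr_mem.1 hx).1
      exact ⟨D_mono (Iio_subset_Iio hb.le) hy, rfl, ⟨c, rfl⟩, ⟨b, rfl, hy⟩,
        (key hb c hy G hG').1 hT⟩
    · rintro ⟨_, h1, ⟨c, hc⟩, ⟨b, hb', hy⟩, hP⟩
      have hxe : x = .pr (.ord b) (Tr.ofCode c) := by rw [h1, hb', hc]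
      subst hxe
      have hb : b < k := ord_mem.1 (pr_mem.1 hx).1
      exact ⟨b, c, rfl, hy, (key hb c hy G hG').2 hP⟩
  have hF := (hREC k S S' h prd F (Phi k) hprd hphi prd_wf h0 hrec
    (fun d hd => ⟨d, hd, fun x hx => hbd x d hx⟩)).1
  -- truth
  have hT : SD k S S' (fun e _ => TruT e.fst e.snd.fst e.snd.snd) := by
    have h1 : SD k S S' (fun e _ => e.snd.snd ∈ F (.pr e.fst e.snd.fst)) :=
      SD.app2 (R := fun x y => y ∈ F x) hF (ST.pr (ST.fst ST.id) (ST.fst (ST.snd ST.id)))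
        (ST.snd (ST.snd ST.id))
    refine h1.congr fun e _ _ _ => ?_
    constructor
    · rintro ⟨b, c, h2, h3, h4⟩
      injection h2 with h5 h6
      exact ⟨b, c, h5, h6, h3, h4⟩
    · rintro ⟨b, c, h5, h6, h3, h4⟩
      exact ⟨b, c, by rw [h5, h6], h3, h4⟩
  refine ⟨hT, ?_, ?_⟩
  · -- least witnesses
    have h1 : SD k S S' (fun e _ => InD e.fst e.snd.snd.fst ∧ InD e.fst e.snd.snd.snd ∧
        TruT e.fst e.snd.fst (.pr e.snd.snd.snd e.snd.snd.fst) ∧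
        ∀ y ∈ D (Iio k), InD e.fst y → TruT e.fst e.snd.fst (.pr y e.snd.snd.fst) →
          ¬ y.lt e.snd.snd.snd) := by
      apply_rules (maxDepth := 1000) [SD.exT, SD.allT, SD.not, SD.and, SD.imp,
        ST.id, ST.fst, ST.snd, ST.pr, ST.nat, SD.app2 hlt, SD.app2 hin, SD.app3 hT]
    refine h1.congr fun e he _ _ => ?_
    constructor
    · rintro ⟨⟨b, hb, h2⟩, ⟨b1, hb1, h3⟩, ⟨b2, c, hb2, hc, h4, h5⟩, h6⟩
      rw [hb] at hb1 hb2
      injection hb1 with hb1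
      injection hb2 with hb2
      subst hb1
      subst hb2
      have hbk : b < k := by
        have := fst_mem he
        rw [hb] at this
        exact ord_mem.1 this
      refine ⟨b, c, hb, hc, h2, h3, h5, fun y hy hTy => ?_⟩
      exact h6 y (D_mono (Iio_subset_Iio hbk.le) hy) ⟨b, hb, hy⟩
        ⟨b, c, hb, hc, pr_mem.2 ⟨hy, h2⟩, hTy⟩
    · rintro ⟨b, c, hb, hc, h2, h3, h4, h5⟩
      refine ⟨⟨b, hb, h2⟩, ⟨b, hb, h3⟩, ⟨b, c, hb, hc, pr_mem.2 ⟨h3, h2⟩, h4⟩, ?_⟩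
      rintro y _ ⟨b1, hb1, h6⟩ ⟨b2, c2, hb2, hc2, h7, h8⟩
      rw [hb] at hb1 hb2
      injection hb1 with hb1
      injection hb2 with hb2
      subst hb1
      subst hb2
      rw [hc] at hc2
      rw [← oc_inj hc2] at h8
      exact h5 y h6 h8
  · -- T-definable predicates
    rintro P ⟨c, hc⟩
    have h1 : SD k S S' (fun e _ => ∃ z ∈ D (Iio k), TruT z (Tr.ofCode c) e) := by
      apply_rules (maxDepth := 1000) [SD.exT, ST.id, ST.fst, ST.snd, ST.pr, ST.nat,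
        ST.const (oc_mem c (Iio k)), SD.app3 hT]
    refine h1.congr fun e he _ _ => ?_
    constructor
    · rintro ⟨z, _, b, c2, _, h3, h4, h5⟩
      rw [← oc_inj h3] at h5
      exact (hc b e h4).1 h5
    · intro hP
      obtain ⟨a, ha, he'⟩ := ex_bd h.lim he
      exact ⟨.ord a, ord_mem.2 ha, a, c, rfl, rfl, he', (hc a e he').2 hP⟩

end Pool.Agent.Helper17.OD.PkTRD
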